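import Pool.Agent.Y152.AS.Defs

/-!
# Zero-cycles on products of curves: definitions
-/

open CategoryTheory AlgebraicGeometry

universe u v w

namespace Pool.Agent.H255R.PC

open Pool.Agent.H914 Pool.Agent.H914.VarClass Pool.Agent.H914.VarClass.Obj Pool.Agent.W492.BB
  Pool.Agent.W550.Corr Pool.Agent.TH133 Pool.Agent.Y152.AS

variable {k : Type u} [Field k] {𝒱 : VarClass k}

/-- The sets `pt X` have the properties of the sets of the classes in `CH_0(X)_ℚ` of the closed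
points of `X`, over an algebraically closed field: the classes of points are zero-cycles of degree
one which span `CH_0(X)_ℚ`, morphisms map points to points, and a point of `X × Y` is a pair of a
point of `X` and a point of `Y`, with class the external product of their classes. -/
structure IsPoints (C : TheoryData.{u, v, 0} 𝒱 ℚ) (pt : ∀ X : 𝒱.Obj, Set (C.A X)) : Prop where
  deg : ∀ (X : 𝒱.Obj), ∀ x ∈ pt X, C.Deg X.dim x ∧ HasDegree C x 1
  span : ∀ (X : 𝒱.Obj) (z : C.A X), C.Deg X.dim z → z ∈ Submodule.span ℚ (pt X)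
  push : ∀ {X Y : 𝒱.Obj} (f : X ⟶ Y), ∀ x ∈ pt X, C.down f x ∈ pt Y
  prod : ∀ (X Y : 𝒱.Obj), ∀ z ∈ pt (X.prod Y), ∃ x ∈ pt X, ∃ y ∈ pt Y, z = C.ext x y

/-- The theorem of the cube: every divisor class on `X × Y × Z` is the sum of the pull-backs of
divisor classes on `X × Y`, `X × Z` and `Y × Z`. -/
def TheoremOfTheCube (C : TheoryData.{u, v, 0} 𝒱 ℚ) : Prop :=
  ∀ (X Y Z : 𝒱.Obj) (W : C.A ((X.prod Y).prod Z)), C.Deg 1 W →
    ∃ (D : C.A (X.prod Y)) (E : C.A (X.prod Z)) (F : C.A (Y.prod Z)),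
      C.Deg 1 D ∧ C.Deg 1 E ∧ C.Deg 1 F ∧
      W = C.up (fst (X.prod Y) Z) D + C.up (prodMap (fst X Y) (𝟙 Z)) E +
        C.up (prodMap (snd X Y) (𝟙 Z)) F

/-- The class `𝒟` of curves dominates all curves, in the following sense. Given two points `x`, `x'`
of a curve `S` and two points `y`, `y'` of a curve `T`, there are a curve `V` in `𝒟` and morphisms
`p : V ⟶ S` and `r : V ⟶ T` such that each of the four points `(x, y)`, `(x, y')`, `(x', y)`,
`(x', y')` of `S × T` is the image `(p v, r v)` of a point `v` of `V`. -/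
def Dominates (C : TheoryData.{u, v, 0} 𝒱 ℚ) (pt : ∀ X : 𝒱.Obj, Set (C.A X))
    (𝒟 : 𝒱.Obj → Prop) : Prop :=
  ∀ S T : 𝒱.Obj, S.dim = 1 → T.dim = 1 → ∀ x ∈ pt S, ∀ x' ∈ pt S, ∀ y ∈ pt T, ∀ y' ∈ pt T,
    ∃ (V : 𝒱.Obj) (p : V ⟶ S) (r : V ⟶ T), 𝒟 V ∧ V.dim = 1 ∧
      ∀ s, (s = x ∨ s = x') → ∀ t, (t = y ∨ t = y') → ∃ v ∈ pt V, C.down p v = s ∧ C.down r v = t

/-- The variety is a product `T_1 × (T_2 × ⋯ × T_s)` of `s ≥ 1` curves. -/
inductive IsProdOfCurves : 𝒱.Obj → Prop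
  | curve (T : 𝒱.Obj) (hT : T.dim = 1) : IsProdOfCurves T
  | prod (T W : 𝒱.Obj) (hT : T.dim = 1) (hW : IsProdOfCurves W) : IsProdOfCurves (T.prod W)

/-- The variety `X` is dominated by a product of curves: there are a product `W` of curves of the
same dimension as `X`, and a morphism `f : W ⟶ X` of degree `m ≠ 0`, that is, with
`f_* [W] = m [X]`. -/
def IsDominatedByCurves (C : TheoryData.{u, v, 0} 𝒱 ℚ) (X : 𝒱.Obj) : Prop :=
  ∃ (W : 𝒱.Obj) (f : W ⟶ X) (m : ℚ), IsProdOfCurves W ∧ W.dim = X.dim ∧ m ≠ 0 ∧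
    C.down f 1 = m • (1 : C.A X)

/-- The Albanese map of `X` is injective (up to torsion): a zero-cycle of degree zero on `X` in the
Albanese kernel is zero in `CH_0(X)_ℚ`. -/
def AlbInjective (C : TheoryData.{u, v, 0} 𝒱 ℚ) (X : 𝒱.Obj) : Prop :=
  ∀ z : C.A X, HasDegree C z 0 → InAlbKer C z → z = 0

/-- For the curve `V` and the divisor class `o` of degree one on `V`, the modified diagonal acts as
zero on the Jacobian of `V`: for every divisor class `a` of degree zero,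
`Δ_* a = a × o + o × a` in `CH_0(V × V)_ℚ`, where `Δ : V ⟶ V × V` is the diagonal. -/
def ModifiedDiagonalZero (C : TheoryData.{u, v, 0} 𝒱 ℚ) (V : 𝒱.Obj) (o : C.A V) : Prop :=
  ∀ a : C.A V, C.Deg 1 a → HasDegree C a 0 →
    C.down (Obj.lift (𝟙 V) (𝟙 V)) a = C.ext a o + C.ext o a

end Pool.Agent.H255R.PC
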