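import Pool.Agent.TH133.Ext
import Pool.Agent.Y148.BB.Corr
import Pool.Agent.H255R.PC.Defs

/-!
# Degrees, external products and point classes
-/

open CategoryTheory AlgebraicGeometry

universe u v w

namespace Pool.Agent.H255R.PC

open Pool.Agent.H914 Pool.Agent.H914.VarClass Pool.Agent.H914.VarClass.Obj Pool.Agent.W492.BB
  Pool.Agent.W550.Corr Pool.Agent.TH133 Pool.Agent.Y148.BB Pool.Agent.Y152.AS

set_option linter.unusedSectionVars false

variable {k : Type u} [Field k] {𝒱 : VarClass k} {C : TheoryData.{u, v, 0} 𝒱 ℚ}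
  [hC : IsChowProj C] {X Y Z S T V W : 𝒱.Obj}

include hC

lemma hd_add {x y : C.A X} {p q : ℚ} (hx : HasDegree C x p) (hy : HasDegree C y q) :
    HasDegree C (x + y) (p + q) := by
  intro Y
  rw [map_add, map_add, map_add, map_add, (hx Y).1, (hx Y).2, (hy Y).1, (hy Y).2, add_smul]
  exact ⟨rfl, rfl⟩

lemma hd_smul {x : C.A X} {p : ℚ} (c : ℚ) (hx : HasDegree C x p) :
    HasDegree C (c • x) (c * p) := by
  intro Y
  rw [map_smul, map_smul, map_smul, map_smul, (hx Y).1, (hx Y).2, smul_smul]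
  exact ⟨rfl, rfl⟩

lemma hd_sub {x y : C.A X} {p q : ℚ} (hx : HasDegree C x p) (hy : HasDegree C y q) :
    HasDegree C (x - y) (p - q) := by
  have h := hd_add hx (hd_smul (-1) hy)
  rwa [neg_one_smul, ← sub_eq_add_neg, neg_one_mul, ← sub_eq_add_neg] at h

lemma hd_sub_self {x y : C.A X} {p : ℚ} (hx : HasDegree C x p) (hy : HasDegree C y p) :
    HasDegree C (x - y) 0 := by
  have h := hd_sub hx hy
  rwa [sub_self] at h

lemma hd_unique {x : C.A X} {p q : ℚ} (hp : HasDegree C x p) (hq : HasDegree C x q)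
    (y : C.A Y) : (p - q) • y = 0 := by
  have h1 : (p - q) • (1 : C.A Y) = 0 := by
    rw [sub_smul, ← (hp Y).1, ← (hq Y).1, sub_self]
  rw [← one_mul y, ← smul_mul_assoc, h1, zero_mul]

lemma exists_hd_one (X : 𝒱.Obj) : ∃ o : C.A X, o ∈ C.gr X X.dim ∧ HasDegree C o 1 := by
  obtain ⟨a, ha, h1, h2⟩ := exists_deg_one C X
  refine ⟨a, ha, fun Y => ?_⟩
  rw [h1, h2, one_smul]
  exact ⟨rfl, rfl⟩

omit hC in
/-- The external product as a bilinear map. -/
noncomputable def extB (C : TheoryData.{u, v, 0} 𝒱 ℚ) (X Y : 𝒱.Obj) :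
    C.A X →ₗ[ℚ] C.A Y →ₗ[ℚ] C.A (X.prod Y) :=
  (LinearMap.mul ℚ (C.A (X.prod Y))).compl₁₂ (C.pull (fst X Y)).toLinearMap
    (C.pull (snd X Y)).toLinearMap

omit hC in
lemma extB_apply (a : C.A X) (b : C.A Y) : extB C X Y a b = C.ext a b := rfl

omit hC in
lemma ext_add_left (a a' : C.A X) (b : C.A Y) : C.ext (a + a') b = C.ext a b + C.ext a' b := by
  rw [← extB_apply, map_add]; rfl

omit hC in
lemma ext_sub_left (a a' : C.A X) (b : C.A Y) : C.ext (a - a') b = C.ext a b - C.ext a' b := by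
  rw [← extB_apply, map_sub]; rfl

omit hC in
lemma ext_add_right (a : C.A X) (b b' : C.A Y) : C.ext a (b + b') = C.ext a b + C.ext a b' := by
  rw [← extB_apply, map_add]; rfl

omit hC in
lemma ext_sub_right (a : C.A X) (b b' : C.A Y) : C.ext a (b - b') = C.ext a b - C.ext a b' := by
  rw [← extB_apply, map_sub]; rfl

lemma push_fst_ext (a : C.A X) {b : C.A Y} {q : ℚ} (hb : HasDegree C b q) :
    C.push (fst X Y) (C.ext a b) = q • a := by
  rw [TheoryData.ext, C.proj_left, (hb X).2, mul_smul_comm, mul_one]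

lemma push_snd_ext {a : C.A X} {p : ℚ} (ha : HasDegree C a p) (b : C.A Y) :
    C.push (snd X Y) (C.ext a b) = p • b := by
  rw [TheoryData.ext, C.proj_right, (ha Y).1, smul_mul_assoc, one_mul]

/-- The degree of an external product. -/
lemma hd_ext {a : C.A X} {b : C.A Y} {p q : ℚ} (ha : HasDegree C a p) (hb : HasDegree C b q) :
    HasDegree C (C.ext a b) (p * q) := by
  intro Z
  constructor
  · have e1 : snd (X.prod Y) Z = t13 X Y Z ≫ snd X Z := by rw [t13_snd]
    have e2 : fst (X.prod Y) Z ≫ fst X Y = t13 X Y Z ≫ fst X Z := by rw [t13_fst]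
    have h1 : C.pull (fst (X.prod Y) Z) (C.ext a b) =
        C.pull (t13 X Y Z) (C.pull (fst X Z) a) *
          C.pull (fst (X.prod Y) Z) (C.pull (snd X Y) b) := by
      rw [TheoryData.ext, map_mul, ← C.pull_comp, e2, C.pull_comp]
    have h2 : C.push (t13 X Y Z) (C.pull (fst (X.prod Y) Z) (C.pull (snd X Y) b)) =
        q • (1 : C.A (X.prod Z)) := by
      change C.push (prodMap (fst X Y) (𝟙 Z)) _ = _
      rw [← C.base_fst, (hb X).2, map_smul, map_one]
    rw [h1, e1, C.push_comp, C.proj_left, h2, mul_smul_comm, mul_one, map_smul, (ha Z).1,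
      smul_smul, mul_comm]
  · have e1 : fst Z (X.prod Y) = u12 Z X Y ≫ fst Z X := by rw [u12_fst]
    have e2 : snd Z (X.prod Y) ≫ fst X Y = u12 Z X Y ≫ snd Z X := by rw [u12_snd]
    have h1 : C.pull (snd Z (X.prod Y)) (C.ext a b) =
        C.pull (u12 Z X Y) (C.pull (snd Z X) a) *
          C.pull (snd Z (X.prod Y)) (C.pull (snd X Y) b) := by
      rw [TheoryData.ext, map_mul, ← C.pull_comp, e2, C.pull_comp]
    have h2 : C.push (u12 Z X Y) (C.pull (snd Z (X.prod Y)) (C.pull (snd X Y) b)) =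
        q • (1 : C.A (Z.prod X)) := by
      change C.push (prodMap (𝟙 Z) (fst X Y)) _ = _
      rw [← C.base_snd, (hb X).2, map_smul, map_one]
    rw [h1, e1, C.push_comp, C.proj_left, h2, mul_smul_comm, mul_one, map_smul, (ha Z).2,
      smul_smul, mul_comm]

/-- The degree of a pull-back under a morphism of degree `m`. -/
lemma hd_pull {f : X ⟶ Y} {m : ℚ} (hf : C.push f 1 = m • (1 : C.A Y)) {z : C.A Y} {p : ℚ}
    (hz : HasDegree C z p) : HasDegree C (C.pull f z) (m * p) := by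
  intro Z
  constructor
  · have e1 : snd X Z = prodMap f (𝟙 Z) ≫ snd Y Z := by rw [prodMap_snd, Category.comp_id]
    have e2 : fst X Z ≫ f = prodMap f (𝟙 Z) ≫ fst Y Z := by rw [prodMap_fst]
    have h1 : C.push (prodMap f (𝟙 Z)) 1 = m • (1 : C.A (Y.prod Z)) := by
      rw [← map_one (C.pull (fst X Z)), ← C.base_fst, hf, map_smul, map_one]
    have h2 := C.proj_right (prodMap f (𝟙 Z)) 1 (C.pull (fst Y Z) z)
    rw [one_mul, h1, smul_mul_assoc, one_mul] at h2
    rw [← C.pull_comp, e2, C.pull_comp, e1, C.push_comp, h2, map_smul, (hz Z).1, smul_smul]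
  · have e1 : fst Z X = prodMap (𝟙 Z) f ≫ fst Z Y := by rw [prodMap_fst, Category.comp_id]
    have e2 : snd Z X ≫ f = prodMap (𝟙 Z) f ≫ snd Z Y := by rw [prodMap_snd]
    have h1 : C.push (prodMap (𝟙 Z) f) 1 = m • (1 : C.A (Z.prod Y)) := by
      rw [← map_one (C.pull (snd Z X)), ← C.base_snd, hf, map_smul, map_one]
    have h2 := C.proj_right (prodMap (𝟙 Z) f) 1 (C.pull (snd Z Y) z)
    rw [one_mul, h1, smul_mul_assoc, one_mul] at h2
    rw [← C.pull_comp, e2, C.pull_comp, e1, C.push_comp, h2, map_smul, (hz Z).2, smul_smul]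

/-- The degree of a push-forward. -/
lemma hd_push (f : X ⟶ Y) {z : C.A X} {p : ℚ} (hz : HasDegree C z p) :
    HasDegree C (C.push f z) p := by
  intro Z
  constructor
  · rw [C.base_fst, ← C.push_comp, prodMap_snd, Category.comp_id, (hz Z).1]
  · rw [C.base_snd, ← C.push_comp, prodMap_fst, Category.comp_id, (hz Z).2]

/-- Two factors of an external product of three classes (first and second). -/
lemma ext_ext_zero {d : C.A X} {b : C.A Y} (h : C.ext d b = 0) (w : C.A Z) :
    C.ext d (C.ext b w) = 0 := by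
  have e1 : u12 X Y Z ≫ fst X Y = fst X (Y.prod Z) := by rw [u12_fst]
  have e2 : u12 X Y Z ≫ snd X Y = snd X (Y.prod Z) ≫ fst Y Z := by rw [u12_snd]
  have h1 : C.pull (u12 X Y Z) (C.ext d b) = 0 := by rw [h, map_zero]
  rw [TheoryData.ext, map_mul, ← C.pull_comp, ← C.pull_comp, e1, e2] at h1
  rw [TheoryData.ext, TheoryData.ext, map_mul, ← C.pull_comp, ← mul_assoc, h1, zero_mul]

/-- Two factors of an external product of three classes (first and third). -/
lemma ext_ext_zero' {d : C.A X} {w : C.A Z} (h : C.ext d w = 0) (b : C.A Y) :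
    C.ext d (C.ext b w) = 0 := by
  have e1 : u13 X Y Z ≫ fst X Z = fst X (Y.prod Z) := by rw [u13_fst]
  have e2 : u13 X Y Z ≫ snd X Z = snd X (Y.prod Z) ≫ snd Y Z := by rw [u13_snd]
  have h1 : C.pull (u13 X Y Z) (C.ext d w) = 0 := by rw [h, map_zero]
  rw [TheoryData.ext, map_mul, ← C.pull_comp, ← C.pull_comp, e1, e2] at h1
  rw [TheoryData.ext, TheoryData.ext, map_mul, ← C.pull_comp, ← C.pull_comp,
    ch_comm C (C.pull (snd X (Y.prod Z) ≫ fst Y Z) b), ← mul_assoc, h1, zero_mul]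

section points

variable {pt : ∀ X : 𝒱.Obj, Set (C.A X)} (hp : IsPoints C pt)

include hp

lemma IsPoints.mem {x : C.A X} (hx : x ∈ pt X) : x ∈ C.gr X X.dim := (hp.deg X x hx).1

lemma IsPoints.hd {x : C.A X} (hx : x ∈ pt X) : HasDegree C x 1 := (hp.deg X x hx).2

/-- A linear map which takes the same value on all points vanishes on the zero-cycles of degree
zero. -/
lemma IsPoints.zero_of {M : Type*} [AddCommGroup M] [Module ℚ M] (φ : C.A X →ₗ[ℚ] M)
    (hφ : ∀ x ∈ pt X, ∀ x' ∈ pt X, φ (x - x') = 0) {z : C.A X} (hz : z ∈ C.gr X X.dim)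
    (h0 : HasDegree C z 0) : φ z = 0 := by
  by_cases hne : (pt X).Nonempty
  · obtain ⟨x₀, hx₀⟩ := hne
    have key : ∀ y ∈ Submodule.span ℚ (pt X), ∃ q, HasDegree C y q ∧ φ y = q • φ x₀ := by
      intro y hy
      induction hy using Submodule.span_induction with
      | mem x hx =>
        refine ⟨1, hp.hd hx, ?_⟩
        have h1 := hφ x hx x₀ hx₀
        rw [map_sub, sub_eq_zero] at h1
        rw [h1, one_smul]
      | zero => exact ⟨0, hasDegree_zero, by rw [map_zero, zero_smul]⟩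
      | add x y _ _ hx hy =>
        obtain ⟨p, h1, h2⟩ := hx
        obtain ⟨q, h3, h4⟩ := hy
        exact ⟨p + q, hd_add h1 h3, by rw [map_add, h2, h4, add_smul]⟩
      | smul c x _ hx =>
        obtain ⟨p, h1, h2⟩ := hx
        exact ⟨c * p, hd_smul c h1, by rw [map_smul, h2, smul_smul]⟩
    obtain ⟨q, h1, h2⟩ := key z (hp.span X z hz)
    have h3 := hd_unique h1 h0 x₀
    rw [sub_zero] at h3
    rw [h2, ← map_smul, h3, map_zero]
  · have h1 := hp.span X z hz
    rw [Set.not_nonempty_iff_eq_empty.1 hne, Submodule.span_empty, Submodule.mem_bot] at h1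
    rw [h1, map_zero]

/-- The diagonal image of a point. -/
lemma IsPoints.push_diag {x : C.A X} (hx : x ∈ pt X) :
    C.push (Obj.lift (𝟙 X) (𝟙 X)) x = C.ext x x := by
  obtain ⟨a, ha, b, hb, h⟩ := hp.prod X X _ (hp.push (Obj.lift (𝟙 X) (𝟙 X)) x hx)
  have h' : C.push (Obj.lift (𝟙 X) (𝟙 X)) x = C.ext a b := h
  have h1 := congrArg (C.push (fst X X)) h'
  have h2 := congrArg (C.push (snd X X)) h'
  rw [← C.push_comp, lift_fst, C.push_id, push_fst_ext a (hp.hd hb), one_smul] at h1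
  rw [← C.push_comp, lift_snd, C.push_id, push_snd_ext (hp.hd ha) b, one_smul] at h2
  rw [h', ← h1, ← h2]

end points

end Pool.Agent.H255R.PC
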