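import Pool.Agent.H255R.PC.Base

/-!
# The Albanese kernels of the varieties dominated by products of curves
-/

open CategoryTheory AlgebraicGeometry

universe u v w

namespace Pool.Agent.H255R.PC

open Pool.Agent.H914 Pool.Agent.H914.VarClass Pool.Agent.H914.VarClass.Obj Pool.Agent.W492.BB
  Pool.Agent.W550.Corr Pool.Agent.TH133 Pool.Agent.Y148.BB Pool.Agent.Y152.AS

set_option linter.unusedSectionVars false

variable {k : Type u} [Field k] {𝒱 : VarClass k} {C : TheoryData.{u, v, 0} 𝒱 ℚ}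
  [hC : IsChowProj C] {X Y Z S T V W : 𝒱.Obj}

include hC

lemma mem_one (hS : S.dim = 1) {a : C.A S} (h : a ∈ C.gr S S.dim) : a ∈ C.gr S 1 := by
  rwa [hS, Nat.cast_one] at h

lemma mem_dim (hS : S.dim = 1) {a : C.A S} (h : a ∈ C.gr S 1) : a ∈ C.gr S S.dim := by
  rwa [hS, Nat.cast_one]

omit hC in
/-- The external products of divisor classes of degree zero on two curves vanish. -/
def ProductsVanish (C : TheoryData.{u, v, 0} 𝒱 ℚ) : Prop :=
  ∀ (S T : 𝒱.Obj) (a : C.A S) (b : C.A T), S.dim = 1 → T.dim = 1 → C.Deg 1 a → C.Deg 1 b →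
    HasDegree C a 0 → HasDegree C b 0 → C.ext a b = 0

/-- The external product of two divisor classes of degree zero lies in the Albanese kernel. -/
lemma ext_inAlbKer (hcube : TheoremOfTheCube C) (hS : S.dim = 1) (hT : T.dim = 1) {a : C.A S}
    {b : C.A T} (ha : a ∈ C.gr S 1) (hb : b ∈ C.gr T 1) (ha0 : HasDegree C a 0)
    (hb0 : HasDegree C b 0) : InAlbKer C (C.ext a b) := by
  have hd : (S.prod T).dim = 2 := by rw [dim_prod, hS, hT]
  have hm : C.ext a b ∈ C.gr (S.prod T) 2 := gr_congr (by norm_num) (ext_mem' ha hb)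
  refine ⟨gr_congr (by rw [hd]; norm_num) hm, fun Y W hW => ?_⟩
  obtain ⟨D, E, F, hD, hE, hF, rfl⟩ := hcube S T Y W hW
  have h1 : C.act (C.pull (fst (S.prod T) Y) D) (C.ext a b) = 0 := by
    have h2 : D * C.ext a b = 0 :=
      hC.gr_top _ _ _ (C.mul_mem hD hm) (by rw [hd]; norm_num)
    rw [TheoryData.act_apply, ← map_mul, h2, map_zero, map_zero]
  have h2 : C.act (C.pull (prodMap (fst S T) (𝟙 Y)) E) (C.ext a b) = 0 := by
    have e1 : snd (S.prod T) Y = prodMap (fst S T) (𝟙 Y) ≫ snd S Y := by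
      rw [prodMap_snd, Category.comp_id]
    have e2 : fst (S.prod T) Y ≫ fst S T = prodMap (fst S T) (𝟙 Y) ≫ fst S Y := by
      rw [prodMap_fst]
    have h3 : C.push (prodMap (fst S T) (𝟙 Y)) (C.pull (fst (S.prod T) Y)
        (C.pull (snd S T) b)) = 0 := by
      rw [← C.base_fst, (hb0 S).2, zero_smul, map_zero]
    rw [TheoryData.act_apply, TheoryData.ext, map_mul (C.pull (fst (S.prod T) Y)),
      ← C.pull_comp (fst (S.prod T) Y) (fst S T), e2, C.pull_comp, ← mul_assoc,
      ← map_mul (C.pull (prodMap (fst S T) (𝟙 Y))), e1, C.push_comp, C.proj_left, h3, mul_zero,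
      map_zero]
  have h3 : C.act (C.pull (prodMap (snd S T) (𝟙 Y)) F) (C.ext a b) = 0 := by
    have e1 : snd (S.prod T) Y = prodMap (snd S T) (𝟙 Y) ≫ snd T Y := by
      rw [prodMap_snd, Category.comp_id]
    have e2 : fst (S.prod T) Y ≫ snd S T = prodMap (snd S T) (𝟙 Y) ≫ fst T Y := by
      rw [prodMap_fst]
    have h3 : C.push (prodMap (snd S T) (𝟙 Y)) (C.pull (fst (S.prod T) Y)
        (C.pull (fst S T) a)) = 0 := by
      rw [← C.base_fst, (ha0 T).1, zero_smul, map_zero]
    rw [TheoryData.act_apply, TheoryData.ext, ch_comm C (C.pull (fst S T) a),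
      map_mul (C.pull (fst (S.prod T) Y)),
      ← C.pull_comp (fst (S.prod T) Y) (snd S T), e2, C.pull_comp, ← mul_assoc,
      ← map_mul (C.pull (prodMap (snd S T) (𝟙 Y))), e1, C.push_comp, C.proj_left, h3, mul_zero,
      map_zero]
  rw [C.act_add, C.act_add]
  change C.act (C.pull (fst (S.prod T) Y) D) (C.ext a b) +
    C.act (C.pull (prodMap (fst S T) (𝟙 Y)) E) (C.ext a b) +
    C.act (C.pull (prodMap (snd S T) (𝟙 Y)) F) (C.ext a b) = 0
  rw [h1, h2, h3, add_zero, add_zero]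

/-- The Albanese kernel is stable under the actions of correspondences of degree zero. -/
lemma inAlbKer_act {Γ : C.A (X.prod Y)} (hΓ : Γ ∈ C.gr (X.prod Y) Y.dim) {z : C.A X}
    (hz : InAlbKer C z) : InAlbKer C (C.act Γ z) := by
  have e1 : Γ ∈ C.gr (X.prod Y) (X.dim + ((Y.dim : ℤ) - X.dim)) := gr_congr (by ring) hΓ
  refine ⟨gr_congr (by ring) (act_mem' C e1 hz.deg), fun Z W hW => ?_⟩
  have e2 : W ∈ C.gr (Y.prod Z) (Y.dim + (1 - (Y.dim : ℤ))) := gr_congr (by ring) hW
  rw [← C.act_comp]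
  exact hz.act_eq_zero Z _ (gr_congr (by ring) (comp_mem C e1 e2))

lemma graph_mem' (f : X ⟶ Y) : C.graph f ∈ C.gr (X.prod Y) Y.dim := by
  have h := C.push_mem (Obj.lift (𝟙 X) f) (C.one_mem X)
  have e1 : (0 : ℤ) + 1 * (((X.prod Y).dim : ℤ) - (X.dim : ℤ)) = Y.dim := by
    rw [dim_prod]; push_cast; ring
  rwa [e1] at h

section points

variable {pt : ∀ X : 𝒱.Obj, Set (C.A X)} (hp : IsPoints C pt)

include hp

/-- The products of curves. -/
lemma prodOfCurves (h : ProductsVanish C) (hW : IsProdOfCurves W) :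
    (∀ (D : 𝒱.Obj) (d : C.A D), D.dim = 1 → d ∈ C.gr D 1 → HasDegree C d 0 →
      ∀ z ∈ C.gr W W.dim, HasDegree C z 0 → C.ext d z = 0) ∧ AlbInjective C W := by
  induction hW with
  | curve T hT =>
    refine ⟨fun D d hD hd hd0 z hz hz0 => h D T d z hD hT hd (mem_one hT hz) hd0 hz0, ?_⟩
    intro z _ hz
    have h1 := hz.act_eq_zero T (dg C T) (gr_congr (by rw [hT, Nat.cast_one]) (dg_mem C T))
    rwa [act_dg] at h1
  | prod T W hT _ ih =>
    obtain ⟨ih1, ih2⟩ := ih
    constructor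
    · intro D d hD hd hd0 z hz hz0
      refine hp.zero_of (extB C D (T.prod W) d) ?_ hz hz0
      intro x hx x' hx'
      obtain ⟨t, ht, w, hw, rfl⟩ := hp.prod T W x hx
      obtain ⟨t', ht', w', hw', rfl⟩ := hp.prod T W x' hx'
      have e1 : C.ext t w - C.ext t' w' = C.ext (t - t') w + C.ext t' (w - w') := by
        rw [ext_sub_left, ext_sub_right]; abel
      have h1 : C.ext d (t - t') = 0 := h D T d (t - t') hD hT hd
        (mem_one hT (Submodule.sub_mem _ (hp.mem ht) (hp.mem ht'))) hd0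
        (hd_sub_self (hp.hd ht) (hp.hd ht'))
      have h2 : C.ext d (w - w') = 0 := ih1 D d hD hd hd0 (w - w')
        (Submodule.sub_mem _ (hp.mem hw) (hp.mem hw')) (hd_sub_self (hp.hd hw) (hp.hd hw'))
      rw [extB_apply, e1, ext_add_right, ext_ext_zero h1, ext_ext_zero' h2, add_zero]
    · intro z hz0 hz
      obtain ⟨o, ho, ho1⟩ := exists_hd_one (C := C) T
      obtain ⟨o', ho', ho1'⟩ := exists_hd_one (C := C) W
      have key : z - C.ext (C.push (fst T W) z) o' - C.ext o (C.push (snd T W) z) = 0 := by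
        have h1 := hp.zero_of (LinearMap.id - ((extB C T W).flip o') ∘ₗ C.push (fst T W) -
          (extB C T W o) ∘ₗ C.push (snd T W)) ?_ hz.deg hz0
        · exact h1
        intro x hx x' hx'
        have h2 : ∀ x ∈ pt (T.prod W), x - C.ext (C.push (fst T W) x) o' -
            C.ext o (C.push (snd T W) x) = - C.ext o o' := by
          intro x hx
          obtain ⟨t, ht, w, hw, rfl⟩ := hp.prod T W x hx
          have h3 : C.ext (t - o) (w - o') = 0 := ih1 T (t - o) hT
            (mem_one hT (Submodule.sub_mem _ (hp.mem ht) ho)) (hd_sub_self (hp.hd ht) ho1) _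
            (Submodule.sub_mem _ (hp.mem hw) ho') (hd_sub_self (hp.hd hw) ho1')
          rw [push_fst_ext t (hp.hd hw), push_snd_ext (hp.hd ht) w, one_smul, one_smul]
          rw [ext_sub_left, ext_sub_right, ext_sub_right] at h3
          rw [← sub_eq_zero, ← h3]
          abel
        rw [map_sub, sub_eq_zero]
        exact (h2 x hx).trans (h2 x' hx').symm
      have h1 : C.push (fst T W) z = 0 := by
        rw [← C.act_graph]
        exact hz.act_eq_zero T _ (gr_congr (by rw [hT, Nat.cast_one]) (graph_mem' _))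
      have h2 : C.push (snd T W) z = 0 := by
        refine ih2 _ (hd_push _ hz0) ?_
        rw [← C.act_graph]
        exact inAlbKer_act (graph_mem' _) hz
      rwa [h1, h2, C.ext_zero_left, C.ext_zero_right, sub_zero, sub_zero] at key

/-- Varieties dominated by products of curves. -/
lemma dominated (h : ProductsVanish C) (hX : IsDominatedByCurves C X) : AlbInjective C X := by
  obtain ⟨W, f, m, hW, hd, hm, hf⟩ := hX
  intro z hz0 hz
  have hf' : C.push f 1 = m • (1 : C.A X) := hf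
  have h1 : HasDegree C (C.pull f z) 0 := by
    have h2 := hd_pull hf' hz0
    rwa [mul_zero] at h2
  have h2 : InAlbKer C (C.pull f z) := by
    rw [← C.act_cograph]
    exact inAlbKer_act (gr_congr (by rw [hd]) (cograph_mem f)) hz
  have h3 := (prodOfCurves hp h hW).2 _ h1 h2
  have h4 := C.proj_right f 1 z
  rw [one_mul, h3, map_zero, hf', smul_mul_assoc, one_mul] at h4
  rw [← one_smul ℚ z, ← inv_mul_cancel₀ hm, mul_smul, ← h4, smul_zero]

/-- The modified diagonal. -/
lemma modDiag_of (h : ProductsVanish C) (hV : V.dim = 1) {o : C.A V} (ho : o ∈ C.gr V 1)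
    (ho1 : HasDegree C o 1) : ModifiedDiagonalZero C V o := by
  intro a ha ha0
  have h1 := hp.zero_of (C.push (Obj.lift (𝟙 V) (𝟙 V)) - (extB C V V).flip o - extB C V V o) ?_
    (mem_dim hV ha) ha0
  · have h2 : C.push (Obj.lift (𝟙 V) (𝟙 V)) a - C.ext a o - C.ext o a = 0 := h1
    rw [sub_sub, sub_eq_zero] at h2
    exact h2
  intro x hx x' hx'
  change C.push (Obj.lift (𝟙 V) (𝟙 V)) (x - x') - C.ext (x - x') o - C.ext o (x - x') = 0
  have h2 : C.ext (x - x') (x - o) = 0 := h V V _ _ hV hV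
    (mem_one hV (Submodule.sub_mem _ (hp.mem hx) (hp.mem hx')))
    (Submodule.sub_mem _ (mem_one hV (hp.mem hx)) ho) (hd_sub_self (hp.hd hx) (hp.hd hx'))
    (hd_sub_self (hp.hd hx) ho1)
  have h3 : C.ext (x' - o) (x - x') = 0 := h V V _ _ hV hV
    (Submodule.sub_mem _ (mem_one hV (hp.mem hx')) ho)
    (mem_one hV (Submodule.sub_mem _ (hp.mem hx) (hp.mem hx'))) (hd_sub_self (hp.hd hx') ho1)
    (hd_sub_self (hp.hd hx) (hp.hd hx'))
  have h4 : C.ext (x - x') (x - o) + C.ext (x' - o) (x - x') = 0 := by rw [h2, h3, add_zero]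
  rw [map_sub, hp.push_diag hx, hp.push_diag hx', ← h4]
  simp only [ext_sub_left, ext_sub_right]
  abel

/-- The reduction to the curves of a dominating class. -/
lemma productsVanish_of {𝒟 : 𝒱.Obj → Prop} (hD : Dominates C pt 𝒟)
    (h : ∀ V : 𝒱.Obj, 𝒟 V → V.dim = 1 → ∃ o : C.A V, C.Deg 1 o ∧ HasDegree C o 1 ∧
      ModifiedDiagonalZero C V o) : ProductsVanish C := by
  have key : ∀ (S T : 𝒱.Obj), S.dim = 1 → T.dim = 1 → ∀ x ∈ pt S, ∀ x' ∈ pt S, ∀ y ∈ pt T,
      ∀ y' ∈ pt T, C.ext (x - x') (y - y') = 0 := by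
    intro S T hS hT x hx x' hx' y hy y' hy'
    obtain ⟨V, p, r, hVD, hV, hpr⟩ := hD S T hS hT x hx x' hx' y hy y' hy'
    obtain ⟨o, ho, ho1, hmod⟩ := h V hVD hV
    have h1 : ∀ v ∈ pt V, ∀ w ∈ pt V, C.ext (v - o) (v - o) = C.ext (w - o) (w - o) := by
      intro v hv w hw
      have h2 : C.push (Obj.lift (𝟙 V) (𝟙 V)) (v - w) = C.ext (v - w) o + C.ext o (v - w) :=
        hmod (v - w) (mem_one hV (Submodule.sub_mem _ (hp.mem hv) (hp.mem hw)))
          (hd_sub_self (hp.hd hv) (hp.hd hw))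
      rw [map_sub, hp.push_diag hv, hp.push_diag hw, ← sub_eq_zero] at h2
      rw [← sub_eq_zero, ← h2]
      simp only [ext_sub_left, ext_sub_right]
      abel
    have h2 : ∀ v ∈ pt V, ∀ w ∈ pt V,
        C.ext (C.push p v - C.push p o) (C.push r v - C.push r o) =
          C.ext (C.push p w - C.push p o) (C.push r w - C.push r o) := by
      intro v hv w hw
      have h3 := congrArg (C.push (prodMap p r)) (h1 v hv w hw)
      rwa [push_ext, push_ext, map_sub, map_sub, map_sub, map_sub] at h3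
    obtain ⟨v₁, hv₁, e1, e1'⟩ := hpr x (Or.inl rfl) y (Or.inl rfl)
    obtain ⟨v₂, hv₂, e2, e2'⟩ := hpr x (Or.inl rfl) y' (Or.inr rfl)
    obtain ⟨v₃, hv₃, e3, e3'⟩ := hpr x' (Or.inr rfl) y (Or.inl rfl)
    obtain ⟨v₄, hv₄, e4, e4'⟩ := hpr x' (Or.inr rfl) y' (Or.inr rfl)
    have h12 := h2 v₁ hv₁ v₂ hv₂
    have h34 := h2 v₃ hv₃ v₄ hv₄
    change C.push p v₁ = x at e1
    change C.push r v₁ = y at e1'
    change C.push p v₂ = x at e2
    change C.push r v₂ = y' at e2'
    change C.push p v₃ = x' at e3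
    change C.push r v₃ = y at e3'
    change C.push p v₄ = x' at e4
    change C.push r v₄ = y' at e4'
    rw [e1, e1', e2, e2', ← sub_eq_zero] at h12
    rw [e3, e3', e4, e4', ← sub_eq_zero] at h34
    have h5 : (C.ext (x - C.push p o) (y - C.push r o) - C.ext (x - C.push p o)
        (y' - C.push r o)) - (C.ext (x' - C.push p o) (y - C.push r o) -
        C.ext (x' - C.push p o) (y' - C.push r o)) = 0 := by rw [h12, h34, sub_zero]
    rw [← h5]
    simp only [ext_sub_left, ext_sub_right]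
    abel
  intro S T a b hS hT ha hb ha0 hb0
  refine hp.zero_of ((extB C S T).flip b) ?_ (mem_dim hS ha) ha0
  intro x hx x' hx'
  refine hp.zero_of (extB C S T (x - x')) ?_ (mem_dim hT hb) hb0
  intro y hy y' hy'
  exact key S T hS hT x hx x' hx' y hy y' hy'

/-- The relation between four points, and the modified diagonal. -/
lemma modDiag_of_points (hV : V.dim = 1)
    (h : ∀ x ∈ pt V, ∀ y ∈ pt V, C.ext (x - y) (x - y) = 0) :
    ∃ o : C.A V, C.Deg 1 o ∧ HasDegree C o 1 ∧ ModifiedDiagonalZero C V o := by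
  by_cases hne : (pt V).Nonempty
  · obtain ⟨y, hy⟩ := hne
    refine ⟨y, mem_one hV (hp.mem hy), hp.hd hy, ?_⟩
    intro a ha ha0
    have h1 := hp.zero_of (C.push (Obj.lift (𝟙 V) (𝟙 V)) - (extB C V V).flip y - extB C V V y) ?_
      (mem_dim hV ha) ha0
    · have h2 : C.push (Obj.lift (𝟙 V) (𝟙 V)) a - C.ext a y - C.ext y a = 0 := h1
      rw [sub_sub, sub_eq_zero] at h2
      exact h2
    intro x hx x' hx'
    change C.push (Obj.lift (𝟙 V) (𝟙 V)) (x - x') - C.ext (x - x') y - C.ext y (x - x') = 0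
    have h4 : C.ext (x - y) (x - y) - C.ext (x' - y) (x' - y) = 0 := by
      rw [h x hx y hy, h x' hx' y hy, sub_zero]
    rw [map_sub, hp.push_diag hx, hp.push_diag hx', ← h4]
    simp only [ext_sub_left, ext_sub_right]
    abel
  · obtain ⟨o, ho, ho1⟩ := exists_hd_one (C := C) V
    refine ⟨o, mem_one hV ho, ho1, ?_⟩
    intro a ha _
    have h1 := hp.span V a (mem_dim hV ha)
    rw [Set.not_nonempty_iff_eq_empty.1 hne, Submodule.span_empty, Submodule.mem_bot] at h1
    change C.push _ a = _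
    rw [h1, map_zero, C.ext_zero_left, C.ext_zero_right, add_zero]

theorem main (hcube : TheoremOfTheCube C) {𝒟 : 𝒱.Obj → Prop} (hD : Dominates C pt 𝒟) :
    List.TFAE [
      ∀ X : 𝒱.Obj, IsDominatedByCurves C X → AlbInjective C X,
      ∀ S T : 𝒱.Obj, S.dim = 1 → T.dim = 1 → AlbInjective C (S.prod T),
      ∀ (S T : 𝒱.Obj) (a : C.A S) (b : C.A T), S.dim = 1 → T.dim = 1 → C.Deg 1 a → C.Deg 1 b →
        HasDegree C a 0 → HasDegree C b 0 → C.ext a b = 0,
      ∀ (V : 𝒱.Obj) (o : C.A V), V.dim = 1 → C.Deg 1 o → HasDegree C o 1 →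
        ModifiedDiagonalZero C V o,
      ∀ V : 𝒱.Obj, 𝒟 V → V.dim = 1 → ∃ o : C.A V, C.Deg 1 o ∧ HasDegree C o 1 ∧
        ModifiedDiagonalZero C V o,
      ∀ V : 𝒱.Obj, 𝒟 V → V.dim = 1 → ∀ x ∈ pt V, ∀ y ∈ pt V,
        C.ext x x + C.ext y y = C.ext x y + C.ext y x] := by
  tfae_have 1 → 2 := by
    intro h S T hS hT
    refine h _ ⟨S.prod T, 𝟙 _, 1, .prod S T hS (.curve T hT), rfl, one_ne_zero, ?_⟩
    rw [one_smul]
    exact C.push_id 1
  tfae_have 2 → 3 := by
    intro h S T a b hS hT ha hb ha0 hb0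
    refine h S T hS hT _ ?_ (ext_inAlbKer hcube hS hT ha hb ha0 hb0)
    have h1 := hd_ext ha0 hb0
    rwa [mul_zero] at h1
  tfae_have 3 → 1 := fun h X hX => dominated hp h hX
  tfae_have 3 → 4 := fun h V o hV ho ho1 => modDiag_of hp h hV ho ho1
  tfae_have 4 → 5 := by
    intro h V _ hV
    obtain ⟨o, ho, ho1⟩ := exists_hd_one (C := C) V
    exact ⟨o, mem_one hV ho, ho1, h V o hV (mem_one hV ho) ho1⟩
  tfae_have 5 → 3 := fun h => productsVanish_of hp hD h
  tfae_have 3 → 6 := by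
    intro h V _ hV x hx y hy
    have h1 : C.ext (x - y) (x - y) = 0 := h V V _ _ hV hV
      (mem_one hV (Submodule.sub_mem _ (hp.mem hx) (hp.mem hy)))
      (mem_one hV (Submodule.sub_mem _ (hp.mem hx) (hp.mem hy)))
      (hd_sub_self (hp.hd hx) (hp.hd hy)) (hd_sub_self (hp.hd hx) (hp.hd hy))
    rw [← sub_eq_zero, ← h1]
    simp only [ext_sub_left, ext_sub_right]
    abel
  tfae_have 6 → 5 := by
    intro h V hVD hV
    refine modDiag_of_points hp hV fun x hx y hy => ?_
    have h1 := h V hVD hV x hx y hy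
    rw [← sub_eq_zero] at h1
    rw [← h1]
    simp only [ext_sub_left, ext_sub_right]
    abel
  tfae_finish

end points

end Pool.Agent.H255R.PC
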